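import Pool.Agent.H902R3.XI.Stmts

/-!
XI-PROJECT, task Glow: crude lower bound for `g`.
-/

set_option autoImplicit false

open Complex MeasureTheory Filter Topology Set Metric
open scoped Real ENNReal

namespace Pool.Agent.H54.XI

open Pool.Agent.H902R3.XI

theorem norm_sin_le_exp (z : ℂ) : ‖Complex.sin z‖ ≤ Real.exp |z.im| := by
  rw [Complex.sin]
  have h1 : ‖cexp (-z * I)‖ ≤ Real.exp |z.im| := by
    rw [Complex.norm_exp]
    apply Real.exp_le_exp.mpr
    have : (-z * I).re = z.im := by simp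
    rw [this]
    exact le_abs_self _
  have h2 : ‖cexp (z * I)‖ ≤ Real.exp |z.im| := by
    rw [Complex.norm_exp]
    apply Real.exp_le_exp.mpr
    have : (z * I).re = -z.im := by simp
    rw [this]
    exact neg_le_abs _
  rw [norm_div, norm_mul, Complex.norm_I, Complex.norm_two]
  have h3 := norm_sub_le (cexp (-z * I)) (cexp (z * I))
  linarith

theorem gamma_half_sq (x : ℝ) :
    π * Real.exp (-(π * |x|)) ≤ ‖Gamma ((1 / 2 : ℂ) + x * I)‖ ^ 2 := by
  have h1 := Complex.Gamma_mul_Gamma_one_sub ((1 / 2 : ℂ) + x * I)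
  have h2 : (1 : ℂ) - ((1 / 2 : ℂ) + x * I) = (starRingEnd ℂ) ((1 / 2 : ℂ) + x * I) := by
    apply Complex.ext
    · simp; norm_num
    · simp
  rw [h2, Complex.Gamma_conj] at h1
  have h3 : ‖Gamma ((1 / 2 : ℂ) + x * I)‖ ^ 2 =
      π / ‖Complex.sin (π * ((1 / 2 : ℂ) + x * I))‖ := by
    have h4 := congrArg norm h1
    rw [norm_mul, RCLike.norm_conj, norm_div] at h4
    rw [sq, h4]
    congr 1
    rw [Complex.norm_real, Real.norm_eq_abs, abs_of_pos Real.pi_pos]
  rw [h3]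
  have h5 := norm_sin_le_exp (π * ((1 / 2 : ℂ) + x * I))
  have h6 : ((π : ℂ) * ((1 / 2 : ℂ) + x * I)).im = π * x := by simp
  rw [h6, abs_mul, abs_of_pos Real.pi_pos] at h5
  have h7 : Complex.sin (π * ((1 / 2 : ℂ) + x * I)) ≠ 0 := by
    intro h
    rw [h, norm_zero, div_zero] at h3
    have h8 : Gamma ((1 / 2 : ℂ) + x * I) = 0 := by
      rw [← norm_eq_zero]
      exact pow_eq_zero_iff (two_ne_zero) |>.mp h3
    have h9 : Gamma ((1 / 2 : ℂ) + x * I) ≠ 0 := by
      apply Complex.Gamma_ne_zero_of_re_pos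
      simp
    exact h9 h8
  have h8 : 0 < ‖Complex.sin (π * ((1 / 2 : ℂ) + x * I))‖ := norm_pos_iff.mpr h7
  rw [le_div_iff₀ h8]
  calc π * Real.exp (-(π * |x|)) * ‖Complex.sin (π * ((1 / 2 : ℂ) + x * I))‖
      ≤ π * Real.exp (-(π * |x|)) * Real.exp (π * |x|) :=
        mul_le_mul_of_nonneg_left h5 (by positivity)
    _ = π := by rw [mul_assoc, ← Real.exp_add]; simp

theorem gamma_half (x : ℝ) :
    Real.sqrt π * Real.exp (-(π * |x| / 2)) ≤ ‖Gamma ((1 / 2 : ℂ) + x * I)‖ := by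
  apply le_of_sq_le_sq _ (norm_nonneg _)
  refine le_trans (le_of_eq ?_) (gamma_half_sq x)
  rw [mul_pow, Real.sq_sqrt Real.pi_pos.le, ← Real.exp_nat_mul]
  congr 2
  push_cast
  ring

/-- the lower bound on the line `Re s = 1` -/
theorem g_line {y : ℝ} (hy : 2 ≤ y) :
    Real.exp (-(π * y / 4)) ≤ ‖g ((1 : ℂ) + y * I)‖ := by
  have hy0 : 0 < y := by linarith
  unfold g
  have e1 : ((1 : ℂ) + y * I) / 2 = (1 / 2 : ℂ) + ((y / 2 : ℝ) : ℂ) * I := by
    push_cast; ring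
  rw [norm_mul, norm_mul, norm_div, norm_mul, e1, Complex.norm_two]
  have h1 : 1 ≤ ‖(1 : ℂ) + y * I‖ := by
    have := Complex.abs_re_le_norm ((1 : ℂ) + y * I)
    simpa using this
  have h2 : y ≤ ‖(1 : ℂ) + y * I - 1‖ := by
    have := Complex.abs_im_le_norm ((1 : ℂ) + y * I - 1)
    have h3 : ((1 : ℂ) + y * I - 1).im = y := by simp
    rw [h3, abs_of_pos hy0] at this
    exact this
  have h3 : ‖(π : ℂ) ^ (-((1 : ℂ) + y * I) / 2)‖ = π ^ (-(1 / 2) : ℝ) := by
    rw [Complex.norm_cpow_eq_rpow_re_of_pos Real.pi_pos]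
    congr 1
    simp
    norm_num
  have h4 := gamma_half (y / 2)
  rw [abs_of_pos (by positivity : 0 < y / 2)] at h4
  rw [h3]
  have h5 : π ^ (-(1 / 2) : ℝ) * Real.sqrt π = 1 := by
    rw [Real.sqrt_eq_rpow, ← Real.rpow_add Real.pi_pos]
    norm_num
  have hpi : 0 < π ^ (-(1 / 2) : ℝ) := Real.rpow_pos_of_pos Real.pi_pos _
  have h6 : 1 ≤ ‖(1 : ℂ) + y * I‖ * ‖(1 : ℂ) + y * I - 1‖ / 2 := by
    have : 2 ≤ ‖(1 : ℂ) + y * I‖ * ‖(1 : ℂ) + y * I - 1‖ := by nlinarith
    linarith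
  calc Real.exp (-(π * y / 4))
      = 1 * π ^ (-(1 / 2) : ℝ) * (Real.sqrt π * Real.exp (-(π * (y / 2) / 2))) := by
        rw [one_mul, ← mul_assoc, h5, one_mul]
        congr 1
        ring
    _ ≤ (‖(1 : ℂ) + y * I‖ * ‖(1 : ℂ) + y * I - 1‖ / 2) * π ^ (-(1 / 2) : ℝ) *
          ‖Gamma ((1 / 2 : ℂ) + ((y / 2 : ℝ) : ℂ) * I)‖ := by
        apply mul_le_mul _ h4 (by positivity) (by positivity)
        exact mul_le_mul_of_nonneg_right h6 hpi.le

theorem norm_a_le {T : ℝ} (hT : 4 * π ≤ T) {s : ℂ} (h1 : T / 2 ≤ ‖s‖) (h2 : ‖s‖ ≤ 4 * T) :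
    ‖a s‖ ≤ Real.log T + 4 := by
  have hT0 : 0 < T := by linarith [Real.pi_pos]
  have hs : 0 < ‖s‖ := by linarith
  unfold a
  rw [norm_div, Complex.norm_two]
  have h3 := Complex.norm_le_abs_re_add_abs_im (log (s / (2 * π)))
  have h4 : |(log (s / (2 * π))).im| ≤ π := by
    rw [Complex.log_im]; exact Complex.abs_arg_le_pi _
  have h5 : (log (s / (2 * π))).re = Real.log (‖s‖ / (2 * π)) := by
    rw [Complex.log_re, norm_div, norm_mul, Complex.norm_two, Complex.norm_real,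
      Real.norm_eq_abs, abs_of_pos Real.pi_pos]
  have h6 : |(log (s / (2 * π))).re| ≤ Real.log T := by
    rw [h5, abs_of_nonneg]
    · apply Real.log_le_log (by positivity)
      rw [div_le_iff₀ (by positivity)]
      nlinarith [Real.pi_gt_three]
    · apply Real.log_nonneg
      rw [le_div_iff₀ (by positivity)]
      linarith
  have h7 : π ≤ 4 := Real.pi_le_four
  have h8 : 0 ≤ Real.log T := le_trans (abs_nonneg _) h6
  linarith

theorem taskGlow : TaskG → TaskGlow := by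
  intro hG B hB
  obtain ⟨C, hC, T₀, hT₀⟩ := hG (B + 1) (by linarith)
  refine ⟨4, by norm_num, ?_⟩
  set K : ℝ := 5 * (1 + B) + C * ((1 + B) ^ 2 + (1 + B)) with hK
  have hKpos : 0 < K := by positivity
  -- eventually
  have hev : ∀ᶠ T : ℝ in atTop, K * (Real.log T) ^ 2 ≤ T := by
    have h := (Real.isLittleO_pow_log_id_atTop (n := 2)).bound (c := 1 / K) (by positivity)
    filter_upwards [h, eventually_ge_atTop 1] with T hT hT1
    rw [Real.norm_eq_abs, abs_of_nonneg (sq_nonneg _), Real.norm_eq_abs, id,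
      abs_of_nonneg (by linarith)] at hT
    rw [div_mul_eq_mul_div, one_mul, le_div_iff₀ hKpos] at hT
    linarith
  have hlog : ∀ᶠ T : ℝ in atTop, 1 ≤ Real.log T := by
    filter_upwards [eventually_ge_atTop (Real.exp 1)] with T hT
    rw [Real.le_log_iff_exp_le (lt_of_lt_of_le (Real.exp_pos 1) hT)]
    exact hT
  obtain ⟨T₁, hT₁⟩ := Filter.eventually_atTop.mp
    ((hev.and hlog).and ((eventually_ge_atTop T₀).and (eventually_ge_atTop (4 * π))))
  refine ⟨T₁, ?_⟩
  intro T hT s hs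
  obtain ⟨⟨hKT, hl1⟩, hTT₀, hT4π⟩ := hT₁ T hT
  have hpi3 := Real.pi_gt_three
  have hT0 : 12 < T := by linarith
  obtain ⟨hs1, hs2, hs3⟩ := hs
  have hlpos : 0 < Real.log T := by linarith
  have hl2 : Real.log T ≤ (Real.log T) ^ 2 := by nlinarith
  -- the comparison point
  set s₁ : ℂ := (1 : ℂ) + s.im * I with hs₁
  have hre1 : s₁.re = 1 := by simp [hs₁]
  have him1 : s₁.im = s.im := by simp [hs₁]
  have hin : InR (B + 1) T s := ⟨hs1, hs2, by nlinarith⟩
  have hin1 : InR (B + 1) T s₁ := by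
    refine ⟨by rw [him1]; exact hs1, by rw [him1]; exact hs2, ?_⟩
    rw [hre1, abs_one]
    nlinarith
  obtain ⟨e, he1, he2⟩ := hT₀ T hTT₀ s s₁ hin hin1
  have hd : ‖s₁ - s‖ ≤ (1 + B) * Real.log T := by
    have h1 : s₁ - s = ((1 - s.re : ℝ) : ℂ) := by
      apply Complex.ext
      · simp [hs₁]
      · simp [hs₁]
    rw [h1, Complex.norm_real, Real.norm_eq_abs]
    calc |1 - s.re| ≤ |(1:ℝ)| + |s.re| := abs_sub _ _
      _ ≤ 1 + B * Real.log T := by rw [abs_one]; linarith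
      _ ≤ (1 + B) * Real.log T := by nlinarith
  have hsn1 : T / 2 ≤ ‖s‖ := by
    have := Complex.abs_im_le_norm s
    have h2 := le_abs_self s.im
    linarith
  have hBT : B * Real.log T ≤ T := by
    have h1 : B * Real.log T ≤ K * (Real.log T) ^ 2 := by
      apply mul_le_mul _ hl2 hlpos.le hKpos.le
      rw [hK]
      nlinarith [mul_pos hC (by positivity : 0 < (1 + B) ^ 2 + (1 + B))]
    linarith
  have hsn2 : ‖s‖ ≤ 4 * T := by
    have h1 := Complex.norm_le_abs_re_add_abs_im s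
    have h2 : |s.im| = s.im := abs_of_pos (by linarith)
    linarith
  have ha := norm_a_le hT4π hsn1 hsn2
  have hap : ‖a s‖ ≤ 5 * Real.log T := by linarith
  -- the exponent
  have hexp : ‖(s₁ - s) * a s + e‖ ≤ K * (Real.log T) ^ 2 := by
    have h1 : ‖(s₁ - s) * a s‖ ≤ 5 * (1 + B) * (Real.log T) ^ 2 := by
      rw [norm_mul]
      calc ‖s₁ - s‖ * ‖a s‖ ≤ ((1 + B) * Real.log T) * (5 * Real.log T) :=
            mul_le_mul hd hap (norm_nonneg _) (by positivity)
        _ = 5 * (1 + B) * (Real.log T) ^ 2 := by ring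
    have h2 : ‖e‖ ≤ C * ((1 + B) ^ 2 + (1 + B)) * (Real.log T) ^ 2 := by
      refine le_trans he2 ?_
      rw [div_le_iff₀ (by linarith)]
      have h3 : ‖s₁ - s‖ ^ 2 ≤ ((1 + B) * Real.log T) ^ 2 :=
        pow_le_pow_left₀ (norm_nonneg _) hd 2
      have h4 : ‖s₁ - s‖ * Real.log T ≤ ((1 + B) * Real.log T) * Real.log T :=
        mul_le_mul_of_nonneg_right hd hlpos.le
      calc C * (‖s₁ - s‖ ^ 2 + ‖s₁ - s‖ * Real.log T)
          ≤ C * (((1 + B) * Real.log T) ^ 2 + ((1 + B) * Real.log T) * Real.log T) := by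
            apply mul_le_mul_of_nonneg_left _ hC.le
            linarith
        _ = C * ((1 + B) ^ 2 + (1 + B)) * (Real.log T) ^ 2 * 1 := by ring
        _ ≤ C * ((1 + B) ^ 2 + (1 + B)) * (Real.log T) ^ 2 * T := by
            apply mul_le_mul_of_nonneg_left _ (by positivity)
            linarith
    calc ‖(s₁ - s) * a s + e‖ ≤ ‖(s₁ - s) * a s‖ + ‖e‖ := norm_add_le _ _
      _ ≤ K * (Real.log T) ^ 2 := by rw [hK, add_mul]; linarith
  have hg1 : Real.exp (-(π * s.im / 4)) ≤ ‖g s₁‖ := by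
    have := g_line (y := s.im) (by linarith)
    exact this
  rw [he1, norm_mul, Complex.norm_exp] at hg1
  have hre : ((s₁ - s) * a s + e).re ≤ T :=
    le_trans (le_trans (le_abs_self _) (Complex.abs_re_le_norm _)) (le_trans hexp hKT)
  have h5 : Real.exp (-(π * s.im / 4)) ≤ ‖g s‖ * Real.exp T :=
    le_trans hg1 (mul_le_mul_of_nonneg_left (Real.exp_le_exp.mpr hre) (norm_nonneg _))
  have h6 : Real.exp (-(π * s.im / 4)) * Real.exp (-T) ≤ ‖g s‖ := by
    calc Real.exp (-(π * s.im / 4)) * Real.exp (-T)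
        ≤ (‖g s‖ * Real.exp T) * Real.exp (-T) :=
          mul_le_mul_of_nonneg_right h5 (Real.exp_pos _).le
      _ = ‖g s‖ := by rw [mul_assoc, ← Real.exp_add]; simp
  refine le_trans ?_ h6
  rw [← Real.exp_add]
  apply Real.exp_le_exp.mpr
  have := Real.pi_le_four
  nlinarith

end Pool.Agent.H54.XI
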